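import Pool.Agent.W787.QC.Defs

open scoped ContDiff

namespace Pool.Agent.W597.QC

open Pool.Agent.W787.QC

theorem fd (u : E → ℝ) (hu : Differentiable ℝ u) (a k c : ℝ) (x v : E) :
    fderiv ℝ (fun y => a * u (k • y) + c) x v = a * k * fderiv ℝ u (k • x) v := by
  have h1 : HasFDerivAt (fun y : E => k • y) (k • ContinuousLinearMap.id ℝ E) x :=
    (hasFDerivAt_id x).const_smul k
  have h2 : HasFDerivAt (fun y : E => u (k • y))
      ((fderiv ℝ u (k • x)).comp (k • ContinuousLinearMap.id ℝ E)) x :=
    (hu (k • x)).hasFDerivAt.comp x h1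
  have h3 := (h2.const_mul a).add_const c
  rw [h3.fderiv]
  simp only [ContinuousLinearMap.smul_apply, ContinuousLinearMap.comp_apply,
    ContinuousLinearMap.id_apply, map_smul, smul_eq_mul]
  ring

theorem lap_scale (u : E → ℝ) (hu : ContDiff ℝ ∞ u) (a k c : ℝ) (x : E) :
    Lap (fun y => a * u (k • y) + c) x = a * k ^ 2 * Lap u (k • x) := by
  have hd : Differentiable ℝ u := hu.differentiable (by simp)
  unfold Lap
  rw [Finset.mul_sum]
  refine Finset.sum_congr rfl fun i _ => ?_
  have h1 : (fun y => fderiv ℝ (fun y => a * u (k • y) + c) y (EuclideanSpace.single i (1 : ℝ)))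
      = fun y => (a * k) * (fun z => fderiv ℝ u z (EuclideanSpace.single i (1 : ℝ))) (k • y) + 0 := by
    funext y
    rw [fd u hd a k c y _, add_zero]
  have h2 : Differentiable ℝ (fun z => fderiv ℝ u z (EuclideanSpace.single i (1 : ℝ))) := by
    have h3 : ContDiff ℝ ∞ (fderiv ℝ u) := hu.fderiv_right (by simp)
    have h4 : Differentiable ℝ (fderiv ℝ u) := h3.differentiable (by simp)
    exact h4.clm_apply (differentiable_const _)
  rw [h1, fd _ h2]
  ring

theorem sc (h : S_BL) : S_SC := by
  obtain ⟨h1, h2, -, -, -⟩ := h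
  intro u k c hu hk x
  have hs : ContDiff ℝ ∞ (fun y : E => u (k • y) + c) :=
    (hu.comp (contDiff_id.const_smul k)).add contDiff_const
  rw [h1 _ hs, h1 _ hu]
  have e1 : Lap (fun y : E => u (k • y) + c) = fun y => k ^ 2 * Lap u (k • y) + 0 := by
    funext y
    have := lap_scale u hu 1 k c y
    simp only [one_mul] at this
    rw [this, add_zero]
  rw [e1, lap_scale (Lap u) (h2 u hu)]
  ring

end Pool.Agent.W597.QC
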